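import Mathlib
import Pool.Agent.W223.AK.Defs

/-! Task AK-RND: rounding of complex numbers. -/

set_option autoImplicit false

namespace Pool.Agent.W214.AK

open Pool.Agent.W223.AK Finset

/-- the sum of the floors is close to the sum -/
theorem floor_sum {h : ℕ} (f : Fin h → ℝ) : |∑ i, f i - ((∑ i, ⌊f i⌋ : ℤ) : ℝ)| ≤ h := by
  push_cast
  rw [← Finset.sum_sub_distrib]
  calc |∑ i, (f i - (⌊f i⌋ : ℝ))| ≤ ∑ i, |f i - (⌊f i⌋ : ℝ)| := Finset.abs_sum_le_sum_abs _ _
    _ ≤ ∑ _i : Fin h, (1 : ℝ) := by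
        refine Finset.sum_le_sum fun i _ => ?_
        have h1 := Int.floor_le (f i)
        have h2 := Int.lt_floor_add_one (f i)
        rw [abs_le]
        constructor <;> linarith
    _ = h := by simp

theorem rnd : StmtRND := by
  intro h A hA
  refine ⟨⌈18 * (h : ℝ) * Real.exp (18 * h)⌉₊ + ⌈2 * A + 2 * h + 2⌉₊, fun M hM z z' hz hz' => ?_⟩
  set C : ℕ := ⌈18 * (h : ℝ) * Real.exp (18 * h)⌉₊ + ⌈2 * A + 2 * h + 2⌉₊ with hC
  have hC1 : 18 * (h : ℝ) * Real.exp (18 * h) ≤ C := by
    have h1 := Nat.le_ceil (18 * (h : ℝ) * Real.exp (18 * h))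
    have h2 : (0 : ℝ) ≤ (⌈2 * A + 2 * h + 2⌉₊ : ℝ) := Nat.cast_nonneg _
    rw [hC]
    push_cast
    linarith
  have hC2 : 2 * A + 2 * h + 2 ≤ C := by
    have h1 := Nat.le_ceil (2 * A + 2 * (h : ℝ) + 2)
    have h2 : (0 : ℝ) ≤ (⌈18 * (h : ℝ) * Real.exp (18 * h)⌉₊ : ℝ) := Nat.cast_nonneg _
    rw [hC]
    push_cast
    linarith
  have hM0 : (0 : ℝ) < M := by exact_mod_cast hM
  have hM1 : (1 : ℝ) ≤ M := by exact_mod_cast hM
  have hh0 : (0 : ℝ) ≤ h := Nat.cast_nonneg h
  have hpi := Real.pi_pos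
  have hpi3 := Real.pi_gt_three
  have hpi4 := Real.pi_le_four
  -- the logarithms
  set Lz : ℂ := ∑ i, Complex.log (z i) with hLz
  set Lz' : ℂ := ∑ i, Complex.log (z' i) with hLz'
  have e1 : ∏ i, z i = Complex.exp Lz := by
    rw [hLz, Complex.exp_sum]
    exact Finset.prod_congr rfl fun i _ => (Complex.exp_log (hz i)).symm
  have e2 : ∏ i, z' i = Complex.exp Lz' := by
    rw [hLz', Complex.exp_sum]
    exact Finset.prod_congr rfl fun i _ => (Complex.exp_log (hz' i)).symm
  have hW : (∏ i, z i) / (∏ i, z' i) = Complex.exp (Lz - Lz') := by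
    rw [e1, e2, Complex.exp_sub]
  have re1 : ∀ w : Fin h → ℂ, (∑ i, Complex.log (w i)).re = ∑ i, Real.log ‖w i‖ := by
    intro w
    rw [Complex.re_sum]
    exact Finset.sum_congr rfl fun i _ => Complex.log_re _
  have im1 : ∀ w : Fin h → ℂ, (∑ i, Complex.log (w i)).im = ∑ i, (w i).arg := by
    intro w
    rw [Complex.im_sum]
    exact Finset.sum_congr rfl fun i _ => Complex.log_im _
  have hra : ∀ w : Fin h → ℂ, |(M : ℝ) * (∑ i, Complex.log (w i)).re - ((∑ i, ra M (w i) : ℤ) : ℝ)| ≤ h := by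
    intro w
    rw [re1, Finset.mul_sum]
    exact floor_sum fun i => (M : ℝ) * Real.log ‖w i‖
  have hrb : ∀ w : Fin h → ℂ, |(M : ℝ) * ((∑ i, Complex.log (w i)).im / (2 * Real.pi)) -
      ((∑ i, ⌊(M : ℝ) * ((w i).arg / (2 * Real.pi))⌋ : ℤ) : ℝ)| ≤ h := by
    intro w
    rw [im1, Finset.sum_div, Finset.mul_sum]
    exact floor_sum fun i => (M : ℝ) * ((w i).arg / (2 * Real.pi))
  have hrbs : ∀ w : Fin h → ℂ, ∑ i, rb M (w i) =
      ((∑ i, ⌊(M : ℝ) * ((w i).arg / (2 * Real.pi))⌋ : ℤ) : ZMod M) := by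
    intro w
    push_cast
    rfl
  set Fz : ℤ := ∑ i, ra M (z i) with hFz
  set Fz' : ℤ := ∑ i, ra M (z' i) with hFz'
  set Gz : ℤ := ∑ i, ⌊(M : ℝ) * ((z i).arg / (2 * Real.pi))⌋ with hGz
  set Gz' : ℤ := ∑ i, ⌊(M : ℝ) * ((z' i).arg / (2 * Real.pi))⌋ with hGz'
  have a1 := abs_le.1 (hra z)
  have a2 := abs_le.1 (hra z')
  have b1 := abs_le.1 (hrb z)
  have b2 := abs_le.1 (hrb z')
  rw [← hLz, ← hFz] at a1
  rw [← hLz', ← hFz'] at a2
  rw [← hLz, ← hGz] at b1
  rw [← hLz', ← hGz'] at b2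
  rw [hrbs z, hrbs z', ← hGz, ← hGz']
  constructor
  · intro hF hG
    have hF' : (Fz : ℝ) = Fz' := by exact_mod_cast hF
    obtain ⟨k, hk⟩ : ∃ k : ℤ, Gz - Gz' = M * k := by
      have := (ZMod.intCast_eq_intCast_iff_dvd_sub Gz' Gz M).1 hG.symm
      obtain ⟨k, hk⟩ := this
      exact ⟨k, hk⟩
    have hk' : (Gz : ℝ) - Gz' = M * k := by exact_mod_cast hk
    set w : ℂ := Lz - Lz' - k * (2 * Real.pi * Complex.I) with hw
    have hexp : Complex.exp (Lz - Lz') = Complex.exp w := by
      rw [hw, Complex.exp_eq_exp_iff_exists_int]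
      exact ⟨k, by ring⟩
    have hwre : w.re = Lz.re - Lz'.re := by
      rw [hw]
      simp
    have hwim : w.im = Lz.im - Lz'.im - k * (2 * Real.pi) := by
      rw [hw]
      simp
    have hre : |w.re| ≤ 2 * h / M := by
      have e5 : |Lz.re - Lz'.re| * M = |(Lz.re - Lz'.re) * M| := by rw [abs_mul, abs_of_pos hM0]
      rw [hwre, le_div_iff₀ hM0, e5, abs_le]
      constructor <;> nlinarith [a1.1, a1.2, a2.1, a2.2]
    have him : |w.im| ≤ 16 * h / M := by
      have e3 : w.im * M = (2 * Real.pi) *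
          ((M * (Lz.im / (2 * Real.pi)) - Gz) - (M * (Lz'.im / (2 * Real.pi)) - Gz')) := by
        have e4 : (k : ℝ) * M = Gz - Gz' := by rw [hk']; ring
        rw [hwim]
        calc (Lz.im - Lz'.im - k * (2 * Real.pi)) * M
            = (Lz.im - Lz'.im) * M - (2 * Real.pi) * (k * M) := by ring
          _ = (Lz.im - Lz'.im) * M - (2 * Real.pi) * (Gz - Gz') := by rw [e4]
          _ = _ := by field_simp; ring
      rw [le_div_iff₀ hM0]
      calc |w.im| * M = |w.im * M| := by rw [abs_mul, abs_of_pos hM0]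
        _ = |(2 * Real.pi) *
          ((M * (Lz.im / (2 * Real.pi)) - Gz) - (M * (Lz'.im / (2 * Real.pi)) - Gz'))| := by rw [e3]
        _ = (2 * Real.pi) *
          |((M * (Lz.im / (2 * Real.pi)) - Gz) - (M * (Lz'.im / (2 * Real.pi)) - Gz'))| := by
            rw [abs_mul, abs_of_pos (by positivity : (0 : ℝ) < 2 * Real.pi)]
        _ ≤ (2 * Real.pi) * (2 * h) := by
            refine mul_le_mul_of_nonneg_left ?_ (by positivity)
            rw [abs_le]
            constructor <;> linarith [b1.1, b1.2, b2.1, b2.2]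
        _ ≤ 16 * h := by nlinarith
    have hwn : ‖w‖ ≤ 18 * h / M := by
      calc ‖w‖ ≤ |w.re| + |w.im| := Complex.norm_le_abs_re_add_abs_im w
        _ ≤ 2 * h / M + 16 * h / M := add_le_add hre him
        _ = 18 * h / M := by ring
    have hwn2 : ‖w‖ ≤ 18 * h := hwn.trans (div_le_self (by positivity) hM1)
    rw [hW, hexp]
    have h1 := Complex.norm_exp_sub_sum_le_norm_mul_exp w 1
    simp only [Finset.range_one, Finset.sum_singleton, pow_zero, Nat.factorial_zero, Nat.cast_one,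
      div_one, pow_one] at h1
    calc ‖Complex.exp w - 1‖ ≤ ‖w‖ * Real.exp ‖w‖ := h1
      _ ≤ (18 * h / M) * Real.exp (18 * h) :=
          mul_le_mul hwn (Real.exp_le_exp.2 hwn2) (Real.exp_pos _).le (by positivity)
      _ = (18 * (h : ℝ) * Real.exp (18 * h)) / M := by ring
      _ ≤ C / M := div_le_div_of_nonneg_right hC1 hM0.le
  · intro y hy h2A hY
    set Y : ℂ := y * ((∏ i, z i) / (∏ i, z' i)) with hYdef
    have hAM : A / M ≤ 1 / 2 := by
      rw [div_le_iff₀ hM0]
      linarith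
    have hY0 : Y ≠ 0 := by
      rw [hYdef]
      refine mul_ne_zero hy (div_ne_zero ?_ ?_)
      · exact Finset.prod_ne_zero_iff.2 fun i _ => hz i
      · exact Finset.prod_ne_zero_iff.2 fun i _ => hz' i
    set w : ℂ := Complex.log Y with hw
    have hwn : ‖w‖ ≤ 3 / 2 * (A / M) := by
      have h1 := Complex.norm_log_one_add_half_le_self (z := Y - 1) (hY.trans hAM)
      have h2 : 1 + (Y - 1) = Y := by ring
      rw [h2] at h1
      exact h1.trans (mul_le_mul_of_nonneg_left hY (by norm_num))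
    have hMw : M * ‖w‖ ≤ 3 / 2 * A := by
      calc M * ‖w‖ ≤ M * (3 / 2 * (A / M)) := mul_le_mul_of_nonneg_left hwn hM0.le
        _ = 3 / 2 * A := by field_simp
    have hexp : Complex.exp (Complex.log y + (Lz - Lz')) = Complex.exp w := by
      rw [hw, Complex.exp_log hY0, Complex.exp_add, Complex.exp_log hy, ← hW]
    obtain ⟨n, hn⟩ := Complex.exp_eq_exp_iff_exists_int.1 hexp
    have hnre : Real.log ‖y‖ + (Lz.re - Lz'.re) = w.re := by
      have := congrArg Complex.re hn
      simpa [Complex.log_re] using this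
    have hnim : y.arg + (Lz.im - Lz'.im) = w.im + n * (2 * Real.pi) := by
      have := congrArg Complex.im hn
      simpa [Complex.log_im] using this
    have f1 := Int.floor_le ((M : ℝ) * Real.log ‖y‖)
    have f2 := Int.lt_floor_add_one ((M : ℝ) * Real.log ‖y‖)
    have g1 := Int.floor_le ((M : ℝ) * (y.arg / (2 * Real.pi)))
    have g2 := Int.lt_floor_add_one ((M : ℝ) * (y.arg / (2 * Real.pi)))
    have hre := abs_le.1 (Complex.abs_re_le_norm w)
    have him := abs_le.1 (Complex.abs_im_le_norm w)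
    have hMre : |(M : ℝ) * w.re| ≤ 3 / 2 * A := by
      rw [abs_mul, abs_of_pos hM0]
      exact (mul_le_mul_of_nonneg_left (Complex.abs_re_le_norm w) hM0.le).trans hMw
    have hMim : |(M : ℝ) * w.im| ≤ 3 / 2 * A := by
      rw [abs_mul, abs_of_pos hM0]
      exact (mul_le_mul_of_nonneg_left (Complex.abs_im_le_norm w) hM0.le).trans hMw
    set gy : ℤ := ⌊(M : ℝ) * (y.arg / (2 * Real.pi))⌋ with hgy
    refine ⟨ra M y + Fz - Fz', gy + Gz - Gz' - M * n, ?_, ?_, by ring, ?_⟩
    · have h3 : |((ra M y + Fz - Fz' : ℤ) : ℝ)| ≤ C := by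
        refine le_trans ?_ hC2
        push_cast
        have h4 : (M : ℝ) * Real.log ‖y‖ + (M * Lz.re - M * Lz'.re) = M * w.re := by
          rw [← hnre]; ring
        have h5 := abs_le.1 hMre
        unfold ra
        rw [abs_le]
        constructor <;> linarith [a1.1, a1.2, a2.1, a2.2, h5.1, h5.2]
      exact_mod_cast h3
    · have h3 : |((gy + Gz - Gz' - M * n : ℤ) : ℝ)| ≤ C := by
        refine le_trans ?_ hC2
        push_cast
        have h4 : (M : ℝ) * (y.arg / (2 * Real.pi)) + (M * (Lz.im / (2 * Real.pi)) -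
            M * (Lz'.im / (2 * Real.pi))) - M * n = M * w.im / (2 * Real.pi) := by
          have h6 : y.arg / (2 * Real.pi) + (Lz.im / (2 * Real.pi) - Lz'.im / (2 * Real.pi)) =
              w.im / (2 * Real.pi) + n := by
            have h7 : (y.arg + (Lz.im - Lz'.im)) / (2 * Real.pi) =
              (w.im + n * (2 * Real.pi)) / (2 * Real.pi) := by rw [hnim]
            have h8 : (w.im + n * (2 * Real.pi)) / (2 * Real.pi) = w.im / (2 * Real.pi) + n := by
              field_simp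
            rw [h8] at h7
            rw [← h7]
            ring
          have h9 : (M : ℝ) * (y.arg / (2 * Real.pi) + (Lz.im / (2 * Real.pi) -
            Lz'.im / (2 * Real.pi))) = M * (w.im / (2 * Real.pi) + n) := by rw [h6]
          linear_combination h9
        have h5 : |(M : ℝ) * w.im / (2 * Real.pi)| ≤ 3 / 2 * A := by
          rw [abs_div, abs_of_pos (by positivity : (0 : ℝ) < 2 * Real.pi)]
          exact (div_le_self (abs_nonneg _) (by linarith)).trans hMim
        have h5' := abs_le.1 h5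
        rw [abs_le]
        constructor <;> linarith [b1.1, b1.2, b2.1, b2.2, h5'.1, h5'.2]
      exact_mod_cast h3
    · have h3 : rb M y = ((gy : ℤ) : ZMod M) := rfl
      rw [h3]
      push_cast
      simp

end Pool.Agent.W214.AK
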